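import Pool.Agent.H520R2.NMDefs

/-!
# Composition of circuits
-/

namespace Pool.Agent.H251R2.DFAI

open Finset Pool.Agent.H520R2.NM

variable {ι ι' : Type}

/-- The same wire in a circuit with more wires. -/
def wadd {n : ℕ} (u : ℕ) : Wire ι n → Wire ι (n + u)
  | .input i => .input i
  | .const b => .const b
  | .gate j => .gate (Fin.castAdd u j)

theorem wadd_any {n w u : ℕ} (C : Circuit ι n) (G : (Fin w → Bool) → Fin u → Bool)
    (a : Fin w → Wire ι n) (x : ι → Bool) (o : Wire ι n) :
    (wadd u o).eval x ((Circuit.any C w u G a).vals x) = o.eval x (C.vals x) := by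
  cases o with
  | input i => rfl
  | const b => rfl
  | gate j => simp only [wadd, Wire.eval, Circuit.vals, Fin.append_left]

theorem wadd_and {n : ℕ} (C : Circuit ι n) (a b : Wire ι n) (x : ι → Bool) (o : Wire ι n) :
    (wadd 1 o).eval x ((Circuit.and C a b).vals x) = o.eval x (C.vals x) := by
  cases o with
  | input i => rfl
  | const b => rfl
  | gate j => exact Fin.snoc_castSucc (α := fun _ => Bool) _ _ _

theorem wadd_or {n : ℕ} (C : Circuit ι n) (a b : Wire ι n) (x : ι → Bool) (o : Wire ι n) :
    (wadd 1 o).eval x ((Circuit.or C a b).vals x) = o.eval x (C.vals x) := by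
  cases o with
  | input i => rfl
  | const b => rfl
  | gate j => exact Fin.snoc_castSucc (α := fun _ => Bool) _ _ _

theorem last_and {n : ℕ} (C : Circuit ι n) (a b : Wire ι n) (x : ι → Bool) :
    (Wire.gate (Fin.last n) : Wire ι (n + 1)).eval x ((Circuit.and C a b).vals x) =
      (a.eval x (C.vals x) && b.eval x (C.vals x)) :=
  Fin.snoc_last (α := fun _ => Bool) _ _

theorem last_or {n : ℕ} (C : Circuit ι n) (a b : Wire ι n) (x : ι → Bool) :
    (Wire.gate (Fin.last n) : Wire ι (n + 1)).eval x ((Circuit.or C a b).vals x) =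
      (a.eval x (C.vals x) || b.eval x (C.vals x)) :=
  Fin.snoc_last (α := fun _ => Bool) _ _

/-- The value of a wire depends only on the values of input and gates. -/
def wsub {n m : ℕ} (τ : ι' → Wire ι m) (g : Fin n → Wire ι m) : Wire ι' n → Wire ι m
  | .input i => τ i
  | .const b => .const b
  | .gate j => g j

theorem wsub_eval {n m : ℕ} (τ : ι' → Wire ι m) (g : Fin n → Wire ι m) (x : ι → Bool)
    (v : Fin m → Bool) (y : ι' → Bool) (u : Fin n → Bool)
    (h1 : ∀ i, (τ i).eval x v = y i) (h2 : ∀ j, (g j).eval x v = u j) (o : Wire ι' n) :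
    (wsub τ g o).eval x v = o.eval y u := by
  cases o with
  | input i => exact h1 i
  | const b => rfl
  | gate j => exact h2 j

/-- Composition of circuits. -/
theorem comp {n0 : ℕ} (D : Circuit ι n0) (τ : ι' → Wire ι n0) {n : ℕ} (C : Circuit ι' n) :
    ∃ (m : ℕ) (C' : Circuit ι m) (τ' : ι' → Wire ι m) (g : Fin n → Wire ι m),
      C'.size = C.size + D.size ∧ C'.fanins = C.fanins ++ D.fanins ∧
      (∀ x i, (τ' i).eval x (C'.vals x) = (τ i).eval x (D.vals x)) ∧
      ∀ x j, (g j).eval x (C'.vals x) = C.vals (fun i => (τ i).eval x (D.vals x)) j := by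
  induction C with
  | empty => exact ⟨n0, D, τ, Fin.elim0, by simp [Circuit.size], by simp [Circuit.fanins],
      fun _ _ => rfl, fun _ j => j.elim0⟩
  | @and n C a b ih =>
    obtain ⟨m, C', τ', g, h1, h2, h3, h4⟩ := ih
    refine ⟨m + 1, .and C' (wsub τ' g a) (wsub τ' g b), fun i => wadd 1 (τ' i),
      Fin.snoc (α := fun _ => Wire ι (m + 1)) (fun j => wadd 1 (g j)) (.gate (Fin.last m)),
      by simp only [Circuit.size, h1]; ring, by simp only [Circuit.fanins, h2],
      fun x i => by rw [wadd_and, h3], fun x j => ?_⟩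
    refine Fin.lastCases ?_ (fun j => ?_) j
    · simp only [Fin.snoc_last]
      rw [last_and, wsub_eval τ' g x _ _ _ (h3 x) (h4 x), wsub_eval τ' g x _ _ _ (h3 x) (h4 x)]
      simp only [Circuit.vals, Fin.snoc_last]
    · simp only [Fin.snoc_castSucc]
      rw [wadd_and, h4]
      simp only [Circuit.vals, Fin.snoc_castSucc]
  | @or n C a b ih =>
    obtain ⟨m, C', τ', g, h1, h2, h3, h4⟩ := ih
    refine ⟨m + 1, .or C' (wsub τ' g a) (wsub τ' g b), fun i => wadd 1 (τ' i),
      Fin.snoc (α := fun _ => Wire ι (m + 1)) (fun j => wadd 1 (g j)) (.gate (Fin.last m)),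
      by simp only [Circuit.size, h1]; ring, by simp only [Circuit.fanins, h2],
      fun x i => by rw [wadd_or, h3], fun x j => ?_⟩
    refine Fin.lastCases ?_ (fun j => ?_) j
    · simp only [Fin.snoc_last]
      rw [last_or, wsub_eval τ' g x _ _ _ (h3 x) (h4 x), wsub_eval τ' g x _ _ _ (h3 x) (h4 x)]
      simp only [Circuit.vals, Fin.snoc_last]
    · simp only [Fin.snoc_castSucc]
      rw [wadd_or, h4]
      simp only [Circuit.vals, Fin.snoc_castSucc]
  | @any n C w u G a ih =>
    obtain ⟨m, C', τ', g, h1, h2, h3, h4⟩ := ih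
    refine ⟨m + u, .any C' w u G (fun j => wsub τ' g (a j)), fun i => wadd u (τ' i),
      Fin.append (fun j => wadd u (g j)) (fun j => .gate (Fin.natAdd m j)),
      by simp only [Circuit.size, h1], by simp only [Circuit.fanins, h2, List.cons_append],
      fun x i => by rw [wadd_any, h3], fun x j => ?_⟩
    refine Fin.addCases (fun j => ?_) (fun j => ?_) j
    · rw [Fin.append_left, wadd_any, h4]
      simp only [Circuit.vals, Fin.append_left]
    · rw [Fin.append_right]
      simp only [Wire.eval, Circuit.vals, Fin.append_right]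
      congr 1
      funext i
      exact wsub_eval τ' g x _ _ _ (h3 x) (h4 x) (a i)

/-- A chain of OR gates. -/
theorem or_chain (L : List ι) : ∀ {n : ℕ} (C : Circuit ι n) {T : Type} (g : T → Wire ι n),
    ∃ (m : ℕ) (C' : Circuit ι m) (g' : T → Wire ι m) (o : Wire ι m),
      C'.size = C.size + L.length ∧ C'.fanins = C.fanins ∧
      (∀ x t, (g' t).eval x (C'.vals x) = (g t).eval x (C.vals x)) ∧
      ∀ x, o.eval x (C'.vals x) = L.any x := by
  induction L with
  | nil => intro n C T g; exact ⟨n, C, g, .const false, by simp, rfl, fun _ _ => rfl,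
      fun x => by simp [Wire.eval]⟩
  | cons i L ih =>
    intro n C T g
    obtain ⟨m, C', g', o, h1, h2, h3, h4⟩ := ih C g
    refine ⟨m + 1, .or C' (.input i) o, fun t => wadd 1 (g' t), .gate (Fin.last m), ?_, ?_, ?_, ?_⟩
    · simp only [Circuit.size, h1, List.length_cons]; ring
    · simp only [Circuit.fanins, h2]
    · intro x t; rw [wadd_or, h3]
    · intro x
      rw [last_or, h4]
      simp [Wire.eval]

/-- Many disjunctions. -/
theorem or_many {T : Type} [Fintype T] [DecidableEq T] (f : T → List ι) (S : Finset T) :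
    ∃ (m : ℕ) (C : Circuit ι m) (g : T → Wire ι m), C.size = ∑ t ∈ S, (f t).length ∧
      C.fanins = [] ∧ ∀ x, ∀ t ∈ S, (g t).eval x (C.vals x) = (f t).any x := by
  induction S using Finset.induction_on with
  | empty => exact ⟨0, .empty, fun _ => .const false, rfl, rfl, by simp⟩
  | insert t S ht ih =>
    obtain ⟨m, C, g, h1, h2, h3⟩ := ih
    obtain ⟨m', C', g', o, h4, h5, h6, h7⟩ := or_chain (f t) C g
    refine ⟨m', C', Function.update g' t o, ?_, by rw [h5, h2], fun x s hs => ?_⟩
    · rw [h4, h1, Finset.sum_insert ht]; ring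
    · by_cases hst : s = t
      · subst hst; rw [Function.update_self]; exact h7 x
      · rw [Function.update_of_ne hst, h6]
        exact h3 x s ((Finset.mem_insert.1 hs).resolve_left hst)

/-- Evaluating a circuit on inputs each of which is a constant or a disjunction of given
variables. -/
theorem comp_or {T : Type} [Fintype T] (f : T → List ι) (F : (T → Bool) → ι' → Bool)
    (hF : ∀ z, (∃ c, ∀ W, F W z = c) ∨ ∃ t, ∀ W, F W z = W t) (B : ℕ)
    (hB : ∑ t, (f t).length ≤ B)
    {n : ℕ} (C : Circuit ι' n) (out : Wire ι' n) :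
    ∃ (m : ℕ) (C' : Circuit ι m) (out' : Wire ι m), C'.size ≤ C.size + B ∧
      C'.fanins = C.fanins ∧ ∀ x, out'.eval x (C'.vals x) =
        out.eval (F (fun t => (f t).any x)) (C.vals (F (fun t => (f t).any x))) := by
  classical
  obtain ⟨n0, D, g, h1, h2, h3⟩ := or_many f Finset.univ
  have hτ : ∀ z, ∃ o : Wire ι n0, ∀ x, o.eval x (D.vals x) = F (fun t => (f t).any x) z := by
    intro z
    rcases hF z with ⟨c, hc⟩ | ⟨t, ht⟩
    · exact ⟨.const c, fun x => by rw [hc]; rfl⟩
    · exact ⟨g t, fun x => by rw [h3 x t (Finset.mem_univ t), ht]⟩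
  choose τ hτ using hτ
  obtain ⟨m, C', τ', g', h4, h5, h6, h7⟩ := comp D τ C
  refine ⟨m, C', wsub τ' g' out, by rw [h4, h1]; omega, by rw [h5, h2, List.append_nil],
    fun x => ?_⟩
  have hy : (fun i => (τ i).eval x (D.vals x)) = F (fun t => (f t).any x) := by
    funext i; exact hτ i x
  rw [wsub_eval τ' g' x _ (F (fun t => (f t).any x)) (C.vals (F (fun t => (f t).any x)))
    (fun i => by rw [h6, hτ]) (fun j => by rw [h7, hy])]

end Pool.Agent.H251R2.DFAI
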