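import Mathlib

/-!
# The intersection problem for deterministic finite automata as a Boolean function
-/

namespace Pool.Agent.H251R2.DFAI

/-- The bits that describe `m` total deterministic finite automata with the `2 ^ b` states
`Fin b → Bool` over the alphabet `Fin K`:
* `inl (i, t)`: bit `t` of the initial state of the automaton `i`;
* `inr (inl (i, q, a, t))`: bit `t` of the state that the automaton `i` enters if it reads the
  letter `a` in the state `q`;
* `inr (inr (i, q))`: the flag that tells whether the state `q` of the automaton `i` is
  accepting. -/
abbrev Bits (m b K : ℕ) : Type :=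
  (Fin m × Fin b) ⊕ (Fin m × (Fin b → Bool) × Fin K × Fin b) ⊕ (Fin m × (Fin b → Bool))

/-- The automaton number `i` of the list of automata that is described by `x`. -/
def aut {m b K : ℕ} (x : Bits m b K → Bool) (i : Fin m) : DFA (Fin K) (Fin b → Bool) where
  step q a := fun t => x (.inr (.inl (i, q, a, t)))
  start := fun t => x (.inl (i, t))
  accept := {q | x (.inr (.inr (i, q))) = true}

/-- Some word is accepted by all the automata. -/
def Meet {m b K : ℕ} (x : Bits m b K → Bool) : Prop :=
  ∃ w : List (Fin K), ∀ i : Fin m, w ∈ (aut x i).accepts

end Pool.Agent.H251R2.DFAI
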