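import Pool.Agent.H251R2.DFAI.Red
import Pool.Agent.H251R2.DFAI.Comp
import Pool.Agent.H559R4.SatDefs

/-!
# The reduction on the level of circuits
-/

namespace Pool.Agent.H251R2.DFAI

open Finset Pool.Agent.H520R2.NM Pool.Agent.H559R4

variable {b k M r K : ℕ}

/-- The literals of the block `i` with the value `a` in the clause `j`. -/
def lits (t : Fin k × Fin M × (Fin b → Bool)) : List (Fin M × Fin (k * b) × Bool) :=
  (List.finRange b).map (fun v => (t.2.1, finProdFinEquiv (t.1, v), t.2.2 v))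

/-- Which values of which blocks satisfy which clauses. -/
def Wf (φ : Fin M × Fin (k * b) × Bool → Bool) (t : Fin k × Fin M × (Fin b → Bool)) : Bool :=
  (lits t).any φ

theorem Wf_iff (φ : Fin M × Fin (k * b) × Bool → Bool) (i : Fin k) (j : Fin M)
    (a : Fin b → Bool) :
    Wf φ (i, j, a) = true ↔ ∃ v : Fin b, φ (j, finProdFinEquiv (i, v), a v) = true := by
  simp [Wf, lits]

theorem sat_iff (φ : Fin M × Fin (k * b) × Bool → Bool) :
    (∃ a : Fin k → Fin b → Bool, ∀ j, ∃ i, Wf φ (i, j, a i) = true) ↔ Sat φ := by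
  constructor
  · rintro ⟨a, ha⟩
    refine ⟨fun z => a (finProdFinEquiv.symm z).1 (finProdFinEquiv.symm z).2, fun j => ?_⟩
    obtain ⟨i, hi⟩ := ha j
    obtain ⟨v, hv⟩ := (Wf_iff φ i j (a i)).1 hi
    refine ⟨finProdFinEquiv (i, v), ?_⟩
    simpa only [Equiv.symm_apply_apply] using hv
  · rintro ⟨a, ha⟩
    refine ⟨fun i v => a (finProdFinEquiv (i, v)), fun j => ?_⟩
    obtain ⟨z, hz⟩ := ha j
    refine ⟨(finProdFinEquiv.symm z).1, (Wf_iff φ _ j _).2 ⟨(finProdFinEquiv.symm z).2, ?_⟩⟩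
    simpa only [Prod.mk.eta, Equiv.apply_symm_apply] using hz

theorem lits_sum : ∑ t : Fin k × Fin M × (Fin b → Bool), (lits t).length =
    k * M * 2 ^ b * b := by
  have : ∀ t : Fin k × Fin M × (Fin b → Bool), (lits t).length = b := by
    intro t; simp [lits]
  simp only [this, Finset.sum_const, Finset.card_univ, Fintype.card_prod, Fintype.card_fin,
    Fintype.card_fun, Fintype.card_bool, smul_eq_mul]
  ring

/-- The letters need not be many. -/
theorem lt_emb (h : k * 2 ^ b + M * k ≤ K) : Nonempty (Lt b k M ↪ Fin K) := by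
  classical
  let f : Lt b k M → (Fin k × (Fin b → Bool)) ⊕ (Fin M × Fin k) := fun l =>
    match l with
    | .set i a => .inl (i, a)
    | .claim j i => .inr (j, i)
  have hf : Function.Injective f := by
    intro l l' h
    cases l <;> cases l' <;> simp_all [f]
  have hc : Fintype.card ((Fin k × (Fin b → Bool)) ⊕ (Fin M × Fin k)) ≤ Fintype.card (Fin K) := by
    simpa using h
  obtain ⟨g⟩ := Function.Embedding.nonempty_of_card_le hc
  exact ⟨⟨fun l => g (f l), fun l l' h => hf (g.injective h)⟩⟩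

/-- The reduction on the level of circuits. -/
theorem link (hb : 0 < b) (e : Lt b k M ↪ Fin K) (p : Fin r → ℕ)
    (hp : ∀ i, 0 < p i) (hpb : ∀ i, p i ≤ 2 ^ b) (hcop : ∀ i j, i ≠ j → Nat.Coprime (p i) (p j))
    (hM : 0 < M) (hpM : M = ∏ i, p i) (hr : 0 < r) :
    ∃ I : (Fin M × Fin (k * b) × Bool → Bool) → Bits (k + r) (b + 1) K → Bool,
      (∀ φ, Meet (I φ) ↔ Sat φ) ∧
      ∀ {N : ℕ} (C : Circuit (Bits (k + r) (b + 1) K) N) (out : Wire (Bits (k + r) (b + 1) K) N),
        ∃ (N' : ℕ) (C' : Circuit (Fin M × Fin (k * b) × Bool) N')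
          (out' : Wire (Fin M × Fin (k * b) × Bool) N'),
          C'.size ≤ C.size + k * M * 2 ^ b * b ∧ C'.fanins = C.fanins ∧
          ∀ φ, out'.eval φ (C'.vals φ) = out.eval (I φ) (C.vals (I φ)) := by
  refine ⟨fun φ => inst e p (Wf φ), fun φ => ?_, fun C out => ?_⟩
  · rw [meet_inst hb e p hp hpb hcop hM hpM hr, sat_iff]
  · exact comp_or lits (inst e p) (inst_proj e p) _ (le_of_eq lits_sum) C out

end Pool.Agent.H251R2.DFAI
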