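import Pool.Agent.H251R2.DFAI.Link
import Pool.Agent.H559R8.Main

/-!
# Lower bounds for the intersection problem: the choice of the parameters
-/

namespace Pool.Agent.H251R2.DFAI

open Finset Filter Pool.Agent.H520R2.NM Pool.Agent.H559R4 Pool.Agent.H559R8

/-- Large pairwise coprime moduli. -/
theorem moduli (r : ℕ) : ∃ Q : ℕ, 0 < Q ∧ ∀ b : ℕ, ∃ p : Fin r → ℕ, (∀ i, 0 < p i) ∧
    (∀ i, p i ≤ 2 ^ b) ∧ (∀ i j, i ≠ j → Nat.Coprime (p i) (p j)) ∧
    2 ^ (b * r) ≤ Q * ∏ i, p i := by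
  refine ⟨∏ i : Fin r, Nat.nth Nat.Prime i,
    Finset.prod_pos (fun i _ => (Nat.prime_nth_prime i).pos), fun b => ?_⟩
  refine ⟨fun i => Nat.nth Nat.Prime i ^ Nat.log (Nat.nth Nat.Prime i) (2 ^ b), ?_, ?_, ?_, ?_⟩
  · intro i; exact pow_pos (Nat.prime_nth_prime i).pos _
  · intro i; exact Nat.pow_log_le_self _ (by positivity)
  · intro i j hij
    apply Nat.Coprime.pow
    rw [Nat.coprime_primes (Nat.prime_nth_prime _) (Nat.prime_nth_prime _)]
    intro h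
    exact hij (Fin.ext (Nat.nth_injective Nat.infinite_setOfPred_prime h))
  · rw [← Finset.prod_mul_distrib, pow_mul]
    calc (2 ^ b) ^ r = ∏ _i : Fin r, 2 ^ b := by simp
      _ ≤ _ := Finset.prod_le_prod' (fun i _ => ?_)
    rw [← pow_succ']
    exact (Nat.lt_pow_succ_log_self (Nat.prime_nth_prime _).one_lt _).le

theorem arith1 {k r b : ℕ} (hb : 3 ≤ b) (hk : 3 * r ≤ k) :
    (k + r) * (b + 1) ≤ 2 * (k * b) := by
  have h1 : k * 3 ≤ k * b := Nat.mul_le_mul_left _ hb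
  have h2 : (3 * r) * b ≤ k * b := Nat.mul_le_mul_right _ hk
  nlinarith

theorem arith2 {δ : ℝ} (hδ : 0 < δ) (hδ1 : δ ≤ 1 / 2) {k r b D : ℕ} (hr : 1 ≤ r)
    (hD : 8 / δ ≤ D) (hb : D ≤ b) (hk : D * r ≤ k) :
    (1 - δ) * (((k + r : ℕ) : ℝ) * ((b + 1 : ℕ) : ℝ)) + 1 ≤ (1 - δ / 2) * ((k * b : ℕ) : ℝ) := by
  push_cast
  have hD0 : (0 : ℝ) < D := lt_of_lt_of_le (by positivity) hD
  have hDδ : 8 ≤ δ * D := by
    rw [div_le_iff₀ hδ] at hD; linarith
  have hb' : (D : ℝ) ≤ b := by exact_mod_cast hb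
  have hk' : (D : ℝ) * r ≤ k := by exact_mod_cast hk
  have hr' : (1 : ℝ) ≤ r := by exact_mod_cast hr
  have hb8 : 8 ≤ δ * b := le_trans hDδ (mul_le_mul_of_nonneg_left hb' hδ.le)
  have hk8 : 8 * (r : ℝ) ≤ δ * k := by
    calc 8 * (r : ℝ) ≤ (δ * D) * r := mul_le_mul_of_nonneg_right hDδ (by positivity)
      _ = δ * (D * r) := by ring
      _ ≤ δ * k := mul_le_mul_of_nonneg_left hk' hδ.le
  have hk0 : (0 : ℝ) ≤ k := Nat.cast_nonneg k
  have hb0 : (0 : ℝ) ≤ b := Nat.cast_nonneg b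
  have hb1 : (1 : ℝ) ≤ b := by
    have : (8 : ℝ) ≤ b := by nlinarith
    linarith
  have e1 : 8 * (k : ℝ) ≤ δ * (k * b) := by nlinarith [mul_le_mul_of_nonneg_left hb8 hk0]
  have e2 : 8 * ((r : ℝ) * b) ≤ δ * (k * b) := by
    nlinarith [mul_le_mul_of_nonneg_right hk8 hb0]
  have e3 : (r : ℝ) ≤ r * b := by nlinarith
  have e4 : (1 : ℝ) ≤ r * b := by nlinarith
  have e5 : (1 - δ) * ((k : ℝ) + r * b + r) ≤ k + r * b + r := by
    have : (0 : ℝ) ≤ k + r * b + r := by positivity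
    nlinarith
  nlinarith

theorem dist (δ : ℝ) (hδ : 0 < δ) (hδ1 : δ ≤ 1 / 2) (A r : ℕ) (hr : 1 ≤ r) :
    ∃ c : ℕ, ∀ m b K P : ℕ, c ≤ m → 1 ≤ b → 1 ≤ P → (m * b) ^ c * P ≤ 2 ^ (r * b) →
      m * 2 ^ (r * b) ≤ K →
      ∃ (Λ : Type) (_ : Fintype Λ) (_ : Nonempty Λ) (x : Λ → Bits m b K → Bool),
        ∀ (N : ℕ) (C : Circuit (Bits m b K) N) (out : Wire (Bits m b K) N),
          (C.fanins.map (· + 1)).prod ≤ P →
          ((C.size + C.fanins.sum : ℕ) : ℝ) * P < 2 ^ ((1 - δ) * ((m : ℝ) * b)) →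
          open Classical in
          ((univ.filter (fun l => (out.eval (x l) (C.vals (x l)) = true ↔ Meet (x l)))).card : ℝ) <
            (1 / 2 + 1 / ((m : ℝ) * b) ^ A) * Fintype.card Λ := by
  obtain ⟨c0, hc0⟩ := main_rand (δ / 2) (by positivity) (A + 1)
  rw [eventually_atTop] at hc0
  obtain ⟨n0, hn0⟩ := hc0
  obtain ⟨Q, hQ, hmod⟩ := moduli r
  obtain ⟨D, hD⟩ := exists_nat_ge (8 / δ)
  refine ⟨c0 + 2 ^ r * Q + n0 + D * r + r * (D + 8) + 8 * r + 4 + 2 ^ (A + 1), ?_⟩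
  intro m b K P hm hb hP hPb hK
  set c := c0 + 2 ^ r * Q + n0 + D * r + r * (D + 8) + 8 * r + 4 + 2 ^ (A + 1) with hc
  have hA0 : 0 < 2 ^ A := by positivity
  have hc4 : 4 ≤ c := by rw [hc]; omega
  have hmb : 2 ≤ m * b := by nlinarith
  -- b is large
  have hcr : c ≤ r * b := by
    have h1 : 2 ^ c ≤ 2 ^ (r * b) := by
      calc 2 ^ c ≤ (m * b) ^ c := Nat.pow_le_pow_left hmb c
        _ ≤ (m * b) ^ c * P := Nat.le_mul_of_pos_right _ hP
        _ ≤ _ := hPb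
    exact (Nat.pow_le_pow_iff_right (by norm_num)).1 h1
  have hbD : D + 8 ≤ b := by
    have h1 : r * (D + 8) ≤ r * b := by
      refine le_trans ?_ hcr
      rw [hc]; omega
    exact Nat.le_of_mul_le_mul_left h1 hr
  obtain ⟨k, rfl⟩ : ∃ k, m = k + r := ⟨m - r, by
    have : 8 * r ≤ c := by rw [hc]; omega
    omega⟩
  obtain ⟨b', rfl⟩ : ∃ b', b = b' + 1 := ⟨b - 1, by omega⟩
  have hb3 : 3 ≤ b' := by omega
  have hbD' : D ≤ b' := by omega
  have hk3 : 3 * r ≤ k := by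
    have : 8 * r ≤ c := by rw [hc]; omega
    omega
  have hkD : D * r ≤ k := by
    have : D * r + 8 * r ≤ c := by rw [hc]; omega
    omega
  have hkn : n0 ≤ k := by
    have : n0 + 8 * r ≤ c := by rw [hc]; omega
    omega
  have h2n : (k + r) * (b' + 1) ≤ 2 * (k * b') := arith1 hb3 hk3
  have hnle : k * b' ≤ (k + r) * (b' + 1) := Nat.mul_le_mul (by omega) (by omega)
  obtain ⟨p, hp0, hpb, hcop, hprod⟩ := hmod b'
  obtain ⟨M, hM⟩ : ∃ M, M = ∏ i, p i := ⟨_, rfl⟩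
  have hM0 : 0 < M := by rw [hM]; exact Finset.prod_pos (fun i _ => hp0 i)
  have hMle : M ≤ 2 ^ (b' * r) := by
    rw [hM, pow_mul]
    calc ∏ i, p i ≤ ∏ _i : Fin r, 2 ^ b' := Finset.prod_le_prod' (fun i _ => hpb i)
      _ = _ := by simp
  rw [← hM] at hprod
  -- the number of clauses is large enough
  have hclauses : (k * b') ^ c0 * P ≤ M := by
    have h1 : 2 ^ r * Q ≤ ((k + r) * (b' + 1)) ^ (c - c0) := by
      calc 2 ^ r * Q ≤ c - c0 := by omega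
        _ ≤ 2 ^ (c - c0) := Nat.lt_two_pow_self.le
        _ ≤ _ := Nat.pow_le_pow_left hmb _
    have h2 : (2 ^ r * Q) * (k * b') ^ c0 ≤ ((k + r) * (b' + 1)) ^ c := by
      calc (2 ^ r * Q) * (k * b') ^ c0
          ≤ ((k + r) * (b' + 1)) ^ (c - c0) * ((k + r) * (b' + 1)) ^ c0 :=
            Nat.mul_le_mul h1 (Nat.pow_le_pow_left hnle _)
        _ = ((k + r) * (b' + 1)) ^ c := by rw [← pow_add]; congr 1; omega
    have h3 : (2 ^ r * Q) * ((k * b') ^ c0 * P) ≤ (2 ^ r * Q) * M := by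
      calc (2 ^ r * Q) * ((k * b') ^ c0 * P) = ((2 ^ r * Q) * (k * b') ^ c0) * P := by ring
        _ ≤ ((k + r) * (b' + 1)) ^ c * P := Nat.mul_le_mul_right _ h2
        _ ≤ 2 ^ (r * (b' + 1)) := hPb
        _ = 2 ^ r * 2 ^ (b' * r) := by rw [← pow_add]; congr 1; ring
        _ ≤ 2 ^ r * (Q * M) := Nat.mul_le_mul_left _ hprod
        _ = _ := by ring
    exact Nat.le_of_mul_le_mul_left h3 (by positivity)
  have hn0' : n0 ≤ k * b' := le_trans hkn (Nat.le_mul_of_pos_right _ (by omega))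
  obtain ⟨⟨Λ, hΛ1, hΛ2, φ, -, hφ⟩, -⟩ := hn0 (k * b') hn0' M P hP hclauses
  -- the letters
  have hlet : k * 2 ^ b' + M * k ≤ K := by
    refine le_trans ?_ hK
    have h1 : 2 ^ b' ≤ 2 ^ (b' * r) := Nat.pow_le_pow_right (by norm_num)
      (Nat.le_mul_of_pos_right _ hr)
    have h2 : 2 * 2 ^ (b' * r) ≤ 2 ^ (r * (b' + 1)) := by
      rw [← pow_succ']
      exact Nat.pow_le_pow_right (by norm_num) (by nlinarith)
    calc k * 2 ^ b' + M * k ≤ k * 2 ^ (b' * r) + 2 ^ (b' * r) * k :=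
          Nat.add_le_add (Nat.mul_le_mul_left _ h1) (Nat.mul_le_mul_right _ hMle)
      _ = k * (2 * 2 ^ (b' * r)) := by ring
      _ ≤ (k + r) * 2 ^ (r * (b' + 1)) := Nat.mul_le_mul (by omega) h2
  obtain ⟨e⟩ := lt_emb hlet
  obtain ⟨I, hI1, hI2⟩ := link (by omega) e p hp0 hpb hcop hM0 hM hr
  refine ⟨Λ, hΛ1, hΛ2, fun l => I (φ l), ?_⟩
  intro N C out h1 h2
  obtain ⟨N', C', out', h3, h4, h5⟩ := hI2 C out
  -- the gates of the reduction are few
  have hE : k * M * 2 ^ b' * b' * P ≤ 2 ^ ((3 * r + 1) * (b' + 1)) := by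
    have g1 : k * b' ≤ 2 ^ (r * (b' + 1)) := by
      calc k * b' ≤ (k + r) * (b' + 1) := hnle
        _ ≤ ((k + r) * (b' + 1)) ^ c := Nat.le_self_pow (by omega) _
        _ ≤ ((k + r) * (b' + 1)) ^ c * P := Nat.le_mul_of_pos_right _ hP
        _ ≤ _ := hPb
    have g2 : P ≤ 2 ^ (r * (b' + 1)) :=
      le_trans (Nat.le_mul_of_pos_left _ (by positivity)) hPb
    have g3 : M ≤ 2 ^ (r * (b' + 1)) := le_trans hMle (Nat.pow_le_pow_right (by norm_num)
      (by nlinarith))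
    have g4 : 2 ^ b' ≤ 2 ^ (b' + 1) := Nat.pow_le_pow_right (by norm_num) (by omega)
    calc k * M * 2 ^ b' * b' * P = ((k * b') * M) * 2 ^ b' * P := by ring
      _ ≤ ((2 ^ (r * (b' + 1)) * 2 ^ (r * (b' + 1))) * 2 ^ (b' + 1)) * 2 ^ (r * (b' + 1)) :=
          Nat.mul_le_mul (Nat.mul_le_mul (Nat.mul_le_mul g1 g3) g4) g2
      _ = _ := by rw [← pow_add, ← pow_add, ← pow_add]; congr 1; ring
  have hE' : ((k * M * 2 ^ b' * b' : ℕ) : ℝ) * P ≤
      2 ^ ((1 - δ) * (((k + r : ℕ) : ℝ) * ((b' + 1 : ℕ) : ℝ))) := by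
    calc ((k * M * 2 ^ b' * b' : ℕ) : ℝ) * P = ((k * M * 2 ^ b' * b' * P : ℕ) : ℝ) := by
          push_cast; ring
      _ ≤ ((2 ^ ((3 * r + 1) * (b' + 1)) : ℕ) : ℝ) := by exact_mod_cast hE
      _ = (2 : ℝ) ^ (((3 * r + 1) * (b' + 1) : ℕ) : ℝ) := by
          rw [Real.rpow_natCast]; push_cast; ring
      _ ≤ _ := by
          apply Real.rpow_le_rpow_of_exponent_le (by norm_num)
          push_cast
          have hk6 : ((6 * r + 2 : ℕ) : ℝ) ≤ ((k + r : ℕ) : ℝ) := by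
            have : 6 * r + 2 ≤ k + r := by
              have : 8 * r + 4 ≤ c := by rw [hc]; omega
              omega
            exact_mod_cast this
          push_cast at hk6
          have g5 : (3 * (r : ℝ) + 1) ≤ (1 - δ) * (k + r) := by nlinarith
          calc (3 * (r : ℝ) + 1) * (b' + 1) ≤ ((1 - δ) * (k + r)) * (b' + 1) :=
                mul_le_mul_of_nonneg_right g5 (by positivity)
            _ = _ := by ring
  have hsize : ((C'.size + C'.fanins.sum : ℕ) : ℝ) * P <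
      2 ^ ((1 - δ / 2) * ((k * b' : ℕ) : ℝ)) := by
    have g6 : ((C'.size + C'.fanins.sum : ℕ) : ℝ) ≤
        ((C.size + C.fanins.sum : ℕ) : ℝ) + ((k * M * 2 ^ b' * b' : ℕ) : ℝ) := by
      rw [h4]
      have : C'.size + C.fanins.sum ≤ C.size + C.fanins.sum + k * M * 2 ^ b' * b' := by omega
      exact_mod_cast this
    calc ((C'.size + C'.fanins.sum : ℕ) : ℝ) * P
        ≤ (((C.size + C.fanins.sum : ℕ) : ℝ) + ((k * M * 2 ^ b' * b' : ℕ) : ℝ)) * P :=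
          mul_le_mul_of_nonneg_right g6 (Nat.cast_nonneg _)
      _ = ((C.size + C.fanins.sum : ℕ) : ℝ) * P + ((k * M * 2 ^ b' * b' : ℕ) : ℝ) * P := by ring
      _ < 2 ^ ((1 - δ) * (((k + r : ℕ) : ℝ) * ((b' + 1 : ℕ) : ℝ))) +
          2 ^ ((1 - δ) * (((k + r : ℕ) : ℝ) * ((b' + 1 : ℕ) : ℝ))) := by
          exact add_lt_add_of_lt_of_le h2 hE'
      _ = 2 ^ ((1 - δ) * (((k + r : ℕ) : ℝ) * ((b' + 1 : ℕ) : ℝ)) + 1) := by
          rw [Real.rpow_add (by norm_num), Real.rpow_one]; ring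
      _ ≤ _ := Real.rpow_le_rpow_of_exponent_le (by norm_num)
          (arith2 hδ hδ1 hr hD hbD' hkD)
  have hres := hφ N' C' out' (by rw [h4]; exact h1) hsize
  -- the sets of the correct answers agree
  have hset : ∀ l, (out'.eval (φ l) (C'.vals (φ l)) = true ↔ Sat (φ l)) ↔
      (out.eval (I (φ l)) (C.vals (I (φ l))) = true ↔ Meet (I (φ l))) := by
    intro l; rw [h5, hI1]
  -- the error term
  have herr : (1 : ℝ) / ((k * b' : ℕ) : ℝ) ^ (A + 1) ≤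
      1 / (((k + r : ℕ) : ℝ) * ((b' + 1 : ℕ) : ℝ)) ^ A := by
    have g7 : ((k + r) * (b' + 1)) ^ A ≤ (k * b') ^ (A + 1) := by
      have g8 : 2 ^ A ≤ k * b' := by
        have : 2 ^ (A + 1) ≤ (k + r) * (b' + 1) := by
          calc 2 ^ (A + 1) ≤ c := by rw [hc]; omega
            _ ≤ k + r := hm
            _ ≤ _ := Nat.le_mul_of_pos_right _ (by omega)
        rw [pow_succ] at this
        omega
      calc ((k + r) * (b' + 1)) ^ A ≤ (2 * (k * b')) ^ A := Nat.pow_le_pow_left h2n _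
        _ = 2 ^ A * (k * b') ^ A := by rw [mul_pow]
        _ ≤ (k * b') * (k * b') ^ A := Nat.mul_le_mul_right _ g8
        _ = _ := by ring
    apply one_div_le_one_div_of_le
    · have : 0 < (k + r) * (b' + 1) := by omega
      have h' : (0 : ℝ) < ((k + r : ℕ) : ℝ) * ((b' + 1 : ℕ) : ℝ) := by exact_mod_cast this
      positivity
    · exact_mod_cast g7
  classical
  have hcard : ((univ.filter (fun l => (out.eval (I (φ l)) (C.vals (I (φ l))) = true ↔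
      Meet (I (φ l))))).card : ℝ) =
      ((univ.filter (fun l => (out'.eval (φ l) (C'.vals (φ l)) = true ↔ Sat (φ l)))).card : ℝ) := by
    congr 2
    ext l
    simp only [mem_filter, mem_univ, true_and]
    exact (hset l).symm
  have hres' : ((univ.filter (fun l => (out'.eval (φ l) (C'.vals (φ l)) = true ↔
      Sat (φ l)))).card : ℝ) < (1 / 2 + 1 / ((k * b' : ℕ) : ℝ) ^ (A + 1)) * Fintype.card Λ := by
    convert hres
  have key : (1 / 2 + 1 / ((k * b' : ℕ) : ℝ) ^ (A + 1)) * (Fintype.card Λ : ℝ) ≤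
      (1 / 2 + 1 / (((k + r : ℕ) : ℝ) * ((b' + 1 : ℕ) : ℝ)) ^ A) * (Fintype.card Λ : ℝ) :=
    mul_le_mul_of_nonneg_right (by linarith) (Nat.cast_nonneg _)
  refine lt_of_eq_of_lt ?_ (lt_of_lt_of_le hres' key)
  convert hcard using 1

/-- The lower bound for circuits on a hard distribution and for randomised circuits. -/
theorem main (δ : ℝ) (hδ : 0 < δ) (A r : ℕ) (hr : 1 ≤ r) :
    ∃ c : ℕ, ∀ m b K P : ℕ, c ≤ m → 1 ≤ b → 1 ≤ P → (m * b) ^ c * P ≤ 2 ^ (r * b) →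
      m * 2 ^ (r * b) ≤ K →
      open Classical in
      (∃ (Λ : Type) (_ : Fintype Λ) (_ : Nonempty Λ) (x : Λ → Bits m b K → Bool),
        ∀ (N : ℕ) (C : Circuit (Bits m b K) N) (out : Wire (Bits m b K) N),
          (C.fanins.map (· + 1)).prod ≤ P →
          ((C.size + C.fanins.sum : ℕ) : ℝ) * P < 2 ^ ((1 - δ) * ((m : ℝ) * b)) →
          ((univ.filter (fun l => (out.eval (x l) (C.vals (x l)) = true ↔ Meet (x l)))).card : ℝ) <
            (1 / 2 + 1 / ((m : ℝ) * b) ^ A) * Fintype.card Λ) ∧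
      ∀ (Ω : Type) [Fintype Ω] (w : Ω → ℝ), (∀ s, 0 ≤ w s) → ∑ s, w s = 1 →
        ∀ (N : Ω → ℕ) (C : ∀ s, Circuit (Bits m b K) (N s)) (out : ∀ s, Wire (Bits m b K) (N s)),
          (∀ s, ((C s).fanins.map (· + 1)).prod ≤ P) →
          (∀ s, (((C s).size + (C s).fanins.sum : ℕ) : ℝ) * P < 2 ^ ((1 - δ) * ((m : ℝ) * b))) →
          ∃ x : Bits m b K → Bool,
            ∑ s ∈ univ.filter (fun s => ((out s).eval x ((C s).vals x) = true ↔ Meet x)), w s <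
              1 / 2 + 1 / ((m : ℝ) * b) ^ A := by
  obtain ⟨c, hc⟩ := dist (min δ (1 / 2)) (by positivity) (min_le_right _ _) A r hr
  refine ⟨c, fun m b K P hm hb hP hPb hK => ?_⟩
  obtain ⟨Λ, hΛ1, hΛ2, x, hx⟩ := hc m b K P hm hb hP hPb hK
  have hle : (2 : ℝ) ^ ((1 - δ) * ((m : ℝ) * b)) ≤ 2 ^ ((1 - min δ (1 / 2)) * ((m : ℝ) * b)) := by
    apply Real.rpow_le_rpow_of_exponent_le (by norm_num)
    apply mul_le_mul_of_nonneg_right _ (by positivity)
    have := min_le_left δ (1 / 2)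
    linarith
  refine ⟨⟨Λ, hΛ1, hΛ2, x, fun N C out h1 h2 => ?_⟩, ?_⟩
  · have := hx N C out h1 (h2.trans_le hle)
    convert this
  · intro Ω _ w hw hw1 N C out h1 h2
    obtain ⟨l, hl⟩ := rand_of_dist' (1 / 2 + 1 / ((m : ℝ) * b) ^ A)
      (fun s l => ((out s).eval (x l) ((C s).vals (x l)) = true ↔ Meet (x l))) w hw hw1
      (fun s => by
        have := hx _ (C s) (out s) (h1 s) ((h2 s).trans_le hle)
        convert this)
    refine ⟨x l, ?_⟩
    convert hl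

end Pool.Agent.H251R2.DFAI
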