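import Pool.Agent.H251R2.DFAI.Defs

/-!
# From CNF satisfiability to the intersection problem

`k` automata store one block of `b` bits of an assignment each; `r` automata count, modulo `p l`,
the claims that the block `i` satisfies the clause `j`.
-/

namespace Pool.Agent.H251R2.DFAI

open Finset

/-- The states of the automata: dead, start, or a stored value. -/
inductive St (b : ℕ) : Type
  | dead | start
  | val (v : Fin b → Bool)

/-- The letters: fix the block `i` of the assignment, or claim that the clause `j` is satisfied by
the block `i`. -/
inductive Lt (b k M : ℕ) : Type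
  | set (i : Fin k) (a : Fin b → Bool)
  | claim (j : Fin M) (i : Fin k)

variable {b k M r K : ℕ}

/-- Block automaton `i`; `W (i, j, a)` tells whether the block `i` with the value `a` satisfies the
clause `j`. -/
def stepB (W : Fin k × Fin M × (Fin b → Bool) → Bool) (i : Fin k) : St b → Lt b k M → St b
  | .dead, _ => .dead
  | .start, .set i' a => if i' = i then .val a else .start
  | .start, .claim _ i' => if i' = i then .dead else .start
  | .val a, .set i' _ => if i' = i then .dead else .val a
  | .val a, .claim j i' => if i' = i then (if W (i, j, a) = true then .val a else .dead)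
      else .val a

/-- The binary digits of a number. -/
def enc (e : ℕ) : Fin b → Bool := fun t => e.testBit t

theorem enc_inj {e f : ℕ} (he : e < 2 ^ b) (hf : f < 2 ^ b)
    (h : (enc e : Fin b → Bool) = enc f) : e = f := by
  apply Nat.eq_of_testBit_eq
  intro t
  by_cases ht : t < b
  · exact congrFun h ⟨t, ht⟩
  · rw [Nat.testBit_lt_two_pow (lt_of_lt_of_le he (Nat.pow_le_pow_right (by norm_num)
      (not_lt.1 ht))), Nat.testBit_lt_two_pow (lt_of_lt_of_le hf
      (Nat.pow_le_pow_right (by norm_num) (not_lt.1 ht)))]

/-- Counter automaton with modulus `p`. -/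
def stepC (p : ℕ) : St b → Lt b k M → St b
  | .dead, _ => .dead
  | s, .set _ _ => s
  | .start, .claim j _ => if (j : ℕ) % p = 0 then .val (enc ((j + 1) % p)) else .dead
  | .val v, .claim j _ => if v = enc ((j : ℕ) % p) then .val (enc ((j + 1) % p)) else .dead

/-- the list of the numbers of the claimed clauses -/
def cl : List (Lt b k M) → List ℕ
  | [] => []
  | .set _ _ :: w => cl w
  | .claim j _ :: w => (j : ℕ) :: cl w

theorem mem_cl {w : List (Lt b k M)} {j : ℕ} (h : j ∈ cl w) :
    ∃ (j' : Fin M) (i : Fin k), (j' : ℕ) = j ∧ Lt.claim j' i ∈ w := by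
  induction w with
  | nil => simp [cl] at h
  | cons l w ih =>
    cases l with
    | set i a =>
      obtain ⟨j', i', h1, h2⟩ := ih (by simpa [cl] using h)
      exact ⟨j', i', h1, List.mem_cons_of_mem _ h2⟩
    | claim j' i =>
      simp only [cl, List.mem_cons] at h
      rcases h with h | h
      · exact ⟨j', i, h.symm, List.mem_cons_self⟩
      · obtain ⟨j'', i', h1, h2⟩ := ih h
        exact ⟨j'', i', h1, List.mem_cons_of_mem _ h2⟩

theorem stepB_dead (W : Fin k × Fin M × (Fin b → Bool) → Bool) (i : Fin k)
    (w : List (Lt b k M)) : w.foldl (stepB W i) .dead = .dead := by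
  induction w with
  | nil => rfl
  | cons l w ih => simpa [stepB] using ih

theorem stepC_dead (p : ℕ) (w : List (Lt b k M)) : w.foldl (stepC p) .dead = .dead := by
  induction w with
  | nil => rfl
  | cons l w ih => simpa [stepC] using ih

/-- A block automaton that ends with a stored value has only seen correct claims. -/
theorem runB_val (W : Fin k × Fin M × (Fin b → Bool) → Bool) (i : Fin k) (a : Fin b → Bool)
    (w : List (Lt b k M)) : ∀ s, w.foldl (stepB W i) s = .val a →
      (s = .start ∨ s = .val a) ∧ ∀ j, Lt.claim j i ∈ w → W (i, j, a) = true := by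
  induction w with
  | nil => intro s h; exact ⟨Or.inr h, by simp⟩
  | cons l w ih =>
    intro s h
    rw [List.foldl_cons] at h
    obtain ⟨h1, h2⟩ := ih _ h
    cases s with
    | dead =>
      rcases h1 with h1 | h1 <;> simp [stepB] at h1
    | start =>
      refine ⟨Or.inl rfl, fun j hj => ?_⟩
      rcases List.mem_cons.1 hj with rfl | hj
      · rcases h1 with h1 | h1 <;> simp [stepB] at h1
      · exact h2 j hj
    | val a' =>
      have hh : stepB W i (.val a') l = .val a' := by
        cases l with
        | set i' a'' =>
          by_cases hi : i' = i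
          · rcases h1 with h1 | h1 <;> simp [stepB, hi] at h1
          · simp [stepB, hi]
        | claim j i' =>
          by_cases hi : i' = i
          · by_cases hW : W (i, j, a') = true
            · simp [stepB, hi, hW]
            · rcases h1 with h1 | h1 <;> simp [stepB, hi, hW] at h1
          · simp [stepB, hi]
      rw [hh] at h1
      have haa : a' = a := by
        rcases h1 with h1 | h1
        · exact absurd h1 (by simp)
        · simpa using h1
      subst haa
      refine ⟨Or.inr rfl, fun j hj => ?_⟩
      rcases List.mem_cons.1 hj with rfl | hj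
      · by_contra hW
        simp [stepB, hW] at hh
      · exact h2 j hj

/-- The block automaton `i` reads the letters that fix the assignment. -/
theorem runB_set (W : Fin k × Fin M × (Fin b → Bool) → Bool) (i : Fin k)
    (a : Fin k → Fin b → Bool) (L : List (Fin k)) (hL : L.Nodup) :
    ((L.map (fun i' => (Lt.set i' (a i') : Lt b k M))).foldl (stepB W i) .start =
      if i ∈ L then .val (a i) else .start) ∧
    (i ∉ L → ∀ v, (L.map (fun i' => (Lt.set i' (a i') : Lt b k M))).foldl (stepB W i) (.val v) =
      .val v) := by
  induction L with
  | nil => simp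
  | cons i' L ih =>
    obtain ⟨hi', hL'⟩ := List.nodup_cons.1 hL
    obtain ⟨ih1, ih2⟩ := ih hL'
    constructor
    · by_cases h : i' = i
      · subst h
        simp only [List.map_cons, List.foldl_cons, stepB, if_true, List.mem_cons, true_or]
        exact ih2 hi' _
      · have h' : ¬ i = i' := fun hh => h hh.symm
        simp only [List.map_cons, List.foldl_cons, stepB, h, if_false, List.mem_cons, h',
          false_or]
        exact ih1
    · intro hn v
      simp only [List.mem_cons, not_or] at hn
      have h' : ¬ i' = i := fun hh => hn.1 hh.symm
      simp only [List.map_cons, List.foldl_cons, stepB, h', if_false]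
      exact ih2 hn.2 v

/-- The block automaton `i` reads correct claims. -/
theorem runB_claim (W : Fin k × Fin M × (Fin b → Bool) → Bool) (i : Fin k) (v : Fin b → Bool)
    (ι : Fin M → Fin k) (h : ∀ j, ι j = i → W (i, j, v) = true) (L : List (Fin M)) :
    (L.map (fun j => (Lt.claim j (ι j) : Lt b k M))).foldl (stepB W i) (.val v) = .val v := by
  induction L with
  | nil => rfl
  | cons j L ih =>
    simp only [List.map_cons, List.foldl_cons, stepB]
    by_cases hj : ι j = i
    · rw [if_pos hj, if_pos (h j hj)]; exact ih
    · rw [if_neg hj]; exact ih

/-- The counter ignores the letters that fix the assignment. -/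
theorem runC_set (p : ℕ) (a : Fin k → Fin b → Bool) (L : List (Fin k)) (s : St b) :
    (L.map (fun i' => (Lt.set i' (a i') : Lt b k M))).foldl (stepC p) s = s := by
  induction L with
  | nil => rfl
  | cons i' L ih =>
    simp only [List.map_cons, List.foldl_cons]
    have : stepC p s (Lt.set i' (a i') : Lt b k M) = s := by cases s <;> rfl
    rw [this]; exact ih

/-- What a run of the counter that starts in a counting state and does not die tells. -/
theorem runC_val {p : ℕ} (hp : 0 < p) (hpb : p ≤ 2 ^ b) (w : List (Lt b k M)) :
    ∀ (t : ℕ) (v : Fin b → Bool), w.foldl (stepC p) (.val (enc (t % p))) = .val v →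
      v = enc ((t + (cl w).length) % p) ∧
        ∀ (u : ℕ) (hu : u < (cl w).length), (cl w)[u] % p = (t + u) % p := by
  induction w with
  | nil =>
    intro t v h
    simp only [List.foldl_nil, St.val.injEq] at h
    refine ⟨by simpa [cl] using h.symm, fun u hu => ?_⟩
    simp [cl] at hu
  | cons l w ih =>
    intro t v h
    cases l with
    | set i a => exact ih t v (by simpa [stepC] using h)
    | claim j i =>
      simp only [List.foldl_cons, stepC] at h
      by_cases hj : (enc (t % p) : Fin b → Bool) = enc ((j : ℕ) % p)
      · rw [if_pos hj] at h
        have hj' : t % p = (j : ℕ) % p :=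
          enc_inj (lt_of_lt_of_le (Nat.mod_lt _ hp) hpb) (lt_of_lt_of_le (Nat.mod_lt _ hp) hpb) hj
        have h1 : ((j : ℕ) + 1) % p = (t + 1) % p := by
          rw [Nat.add_mod, ← hj', ← Nat.add_mod]
        rw [h1] at h
        obtain ⟨h2, h3⟩ := ih (t + 1) v h
        refine ⟨by rw [h2]; simp only [cl, List.length_cons]; congr 2; ring, fun u hu => ?_⟩
        cases u with
        | zero => simpa [cl] using hj'.symm
        | succ u =>
          have := h3 u (by simpa [cl] using hu)
          simp only [cl, List.getElem_cons_succ]
          rw [this]; congr 1; ring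
      · rw [if_neg hj, stepC_dead] at h
        exact absurd h (by simp)

theorem runC_start {p : ℕ} (hp : 0 < p) (hpb : p ≤ 2 ^ b) (w : List (Lt b k M)) :
    ∀ (v : Fin b → Bool), w.foldl (stepC p) .start = .val v →
      1 ≤ (cl w).length ∧ v = enc ((cl w).length % p) ∧
        ∀ (u : ℕ) (hu : u < (cl w).length), (cl w)[u] % p = u % p := by
  induction w with
  | nil => intro v h; simp at h
  | cons l w ih =>
    intro v h
    cases l with
    | set i a => exact ih v (by simpa [stepC] using h)
    | claim j i =>
      simp only [List.foldl_cons, stepC] at h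
      by_cases hj : (j : ℕ) % p = 0
      · rw [if_pos hj] at h
        have h1 : ((j : ℕ) + 1) % p = 1 % p := by
          rw [Nat.add_mod, hj, zero_add, Nat.mod_mod]
        rw [h1] at h
        obtain ⟨h2, h3⟩ := runC_val hp hpb w 1 v h
        refine ⟨by simp [cl], by rw [h2]; simp only [cl, List.length_cons]; congr 2; ring,
          fun u hu => ?_⟩
        cases u with
        | zero => simpa [cl] using hj
        | succ u =>
          have := h3 u (by simpa [cl] using hu)
          simp only [cl, List.getElem_cons_succ]
          rw [this]; congr 1; ring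
      · rw [if_neg hj, stepC_dead] at h
        exact absurd h (by simp)

/-- The counter reads consecutive claims. -/
theorem runC_claims {p : ℕ} (ι : Fin M → Fin k) (L : List (Fin M)) :
    ∀ t : ℕ, (∀ (u : ℕ) (hu : u < L.length), ((L[u] : Fin M) : ℕ) % p = (t + u) % p) →
      (L.map (fun j => (Lt.claim j (ι j) : Lt b k M))).foldl (stepC p) (.val (enc (t % p))) =
        .val (enc ((t + L.length) % p)) := by
  induction L with
  | nil => intro t _; simp
  | cons j L ih =>
    intro t h
    have h0 : (j : ℕ) % p = t % p := by
      have := h 0 (by simp)
      rwa [List.getElem_cons_zero, Nat.add_zero] at this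
    simp only [List.map_cons, List.foldl_cons, stepC]
    rw [if_pos (by rw [h0])]
    have h1 : ((j : ℕ) + 1) % p = (t + 1) % p := by
      rw [Nat.add_mod, h0, ← Nat.add_mod]
    rw [h1, ih (t + 1)]
    · simp only [List.length_cons]; congr 3; ring
    · intro u hu
      have := h (u + 1) (by simpa using hu)
      simp only [List.getElem_cons_succ] at this
      rw [this]; congr 1; ring

theorem runC_all {p : ℕ} (hM : 0 < M) (hpM : p ∣ M) (ι : Fin M → Fin k) :
    ((List.finRange M).map (fun j => (Lt.claim j (ι j) : Lt b k M))).foldl (stepC p) .start =
      .val (enc 0) := by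
  obtain ⟨M', rfl⟩ : ∃ M', M = M' + 1 := ⟨M - 1, by omega⟩
  rw [List.finRange_succ]
  simp only [List.map_cons, List.foldl_cons, stepC, Fin.val_zero, Nat.zero_mod, if_true]
  have h := runC_claims (b := b) (k := k) (p := p) ι ((List.finRange M').map Fin.succ) 1 (by
    intro u hu
    simp only [List.getElem_map, Fin.val_succ]
    simp only [List.length_map, List.length_finRange] at hu
    simp only [List.getElem_finRange, Fin.val_cast]
    congr 1; ring)
  rw [h]
  simp only [List.length_map, List.length_finRange]
  rw [show (1 + M') % p = 0 by rw [add_comm]; exact Nat.mod_eq_zero_of_dvd hpM]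

/-- The code of a state. -/
def code : St b → Fin (b + 1) → Bool
  | .dead => fun _ => false
  | .start => Fin.cons false (fun _ => true)
  | .val v => Fin.cons true v

/-- Decoding a state. -/
def uncode (q : Fin (b + 1) → Bool) : St b :=
  if q 0 = true then .val (Fin.tail q) else if q = code .start then .start else .dead

theorem uncode_code (hb : 0 < b) (s : St b) : uncode (code s) = s := by
  cases s with
  | dead =>
    have h : (code .dead : Fin (b + 1) → Bool) ≠ code .start := by
      intro h
      have := congrFun h (Fin.succ ⟨0, hb⟩)
      simp only [code, Fin.cons_succ] at this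
      exact absurd this (by decide)
    simp only [uncode]
    rw [if_neg (by simp [code]), if_neg h]
  | start =>
    simp only [uncode]
    rw [if_neg (by simp [code])]
    simp
  | val v =>
    simp only [uncode]
    rw [if_pos (by simp [code])]
    simp [code]

/-- Decoding a letter. -/
noncomputable def unlt (e : Lt b k M ↪ Fin K) (a : Fin K) : Option (Lt b k M) :=
  open Classical in if h : ∃ l, e l = a then some h.choose else none

theorem unlt_emb (e : Lt b k M ↪ Fin K) (l : Lt b k M) : unlt e (e l) = some l := by
  have h : ∃ l', e l' = e l := ⟨l, rfl⟩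
  unfold unlt
  rw [dif_pos h]
  exact congrArg some (e.injective h.choose_spec)

/-- One step of the automaton `i`. -/
def stepA (W : Fin k × Fin M × (Fin b → Bool) → Bool) (p : Fin r → ℕ) (i : Fin (k + r)) :
    St b → Option (Lt b k M) → St b :=
  fun s l => l.elim .dead (fun l => Fin.addCases (fun i' => stepB W i' s l)
    (fun i' => stepC (p i') s l) i)

/-- Is the code of a state accepting for the automaton `i`? -/
def accA (i : Fin (k + r)) : St b → Bool
  | .dead => false
  | .start => false
  | .val v => Fin.addCases (fun _ => true) (fun _ => decide (v = enc 0)) i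

/-- The instance of the intersection problem. -/
noncomputable def inst (e : Lt b k M ↪ Fin K) (p : Fin r → ℕ)
    (W : Fin k × Fin M × (Fin b → Bool) → Bool) : Bits (k + r) (b + 1) K → Bool
  | .inl (_, t) => code .start t
  | .inr (.inl (i, q, a, t)) => code (stepA W p i (uncode q) (unlt e a)) t
  | .inr (.inr (i, q)) => accA i (uncode q)

theorem inst_eval (hb : 0 < b) (e : Lt b k M ↪ Fin K) (p : Fin r → ℕ)
    (W : Fin k × Fin M × (Fin b → Bool) → Bool) (i : Fin (k + r)) (w : List (Fin K)) (s : St b) :
    (aut (inst e p W) i).evalFrom (code s) w =
      code ((w.map (unlt e)).foldl (stepA W p i) s) := by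
  induction w generalizing s with
  | nil => rfl
  | cons a w ih =>
    have : (aut (inst e p W) i).evalFrom (code s) (a :: w) =
        (aut (inst e p W) i).evalFrom ((aut (inst e p W) i).step (code s) a) w := rfl
    rw [this]
    have h2 : (aut (inst e p W) i).step (code s) a = code (stepA W p i s (unlt e a)) := by
      funext t
      simp only [aut, inst, uncode_code hb]
    rw [h2, ih]
    rfl

theorem inst_accepts (hb : 0 < b) (e : Lt b k M ↪ Fin K) (p : Fin r → ℕ)
    (W : Fin k × Fin M × (Fin b → Bool) → Bool) (i : Fin (k + r)) (w : List (Fin K)) :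
    w ∈ (aut (inst e p W) i).accepts ↔
      accA i ((w.map (unlt e)).foldl (stepA W p i) .start) = true := by
  have h : (aut (inst e p W) i).eval w =
      code ((w.map (unlt e)).foldl (stepA W p i) .start) := by
    rw [← inst_eval hb e p W i w .start]
    rfl
  rw [DFA.mem_accepts, h]
  simp only [aut, inst, Set.mem_ofPred_eq, uncode_code hb]

theorem stepA_none (W : Fin k × Fin M × (Fin b → Bool) → Bool) (p : Fin r → ℕ)
    (i : Fin (k + r)) (L : List (Option (Lt b k M))) (h : none ∈ L) (s : St b) :
    L.foldl (stepA W p i) s = .dead := by
  have hd : ∀ L : List (Option (Lt b k M)), L.foldl (stepA W p i) .dead = .dead := by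
    intro L
    induction L with
    | nil => rfl
    | cons l L ih =>
      rw [List.foldl_cons]
      have : stepA W p i .dead l = .dead := by
        cases l with
        | none => rfl
        | some l =>
          simp only [stepA, Option.elim_some]
          refine Fin.addCases (fun i' => ?_) (fun i' => ?_) i
          · simp [stepB]
          · simp [stepC]
      rw [this]; exact ih
  induction L generalizing s with
  | nil => simp at h
  | cons l L ih =>
    rw [List.foldl_cons]
    rcases List.mem_cons.1 h with h | h
    · subst h; exact hd L
    · exact ih h _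

theorem foldA_block (W : Fin k × Fin M × (Fin b → Bool) → Bool) (p : Fin r → ℕ) (i : Fin k)
    (w : List (Lt b k M)) (s : St b) :
    (w.map some).foldl (stepA W p (Fin.castAdd r i)) s = w.foldl (stepB W i) s := by
  induction w generalizing s with
  | nil => rfl
  | cons l w ih =>
    simp only [List.map_cons, List.foldl_cons]
    rw [← ih]
    simp [stepA]

theorem foldA_count (W : Fin k × Fin M × (Fin b → Bool) → Bool) (p : Fin r → ℕ) (i : Fin r)
    (w : List (Lt b k M)) (s : St b) :
    (w.map some).foldl (stepA W p (Fin.natAdd k i)) s = w.foldl (stepC (p i)) s := by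
  induction w generalizing s with
  | nil => rfl
  | cons l w ih =>
    simp only [List.map_cons, List.foldl_cons]
    rw [← ih]
    simp [stepA]

/-- The reduction: the automata accept a common word if and only if some assignment satisfies all
the clauses. -/
theorem meet_inst (hb : 0 < b) (e : Lt b k M ↪ Fin K) (p : Fin r → ℕ)
    (hp : ∀ i, 0 < p i) (hpb : ∀ i, p i ≤ 2 ^ b) (hcop : ∀ i j, i ≠ j → Nat.Coprime (p i) (p j))
    (hM : 0 < M) (hpM : M = ∏ i, p i) (hr : 0 < r)
    (W : Fin k × Fin M × (Fin b → Bool) → Bool) :
    Meet (inst e p W) ↔ ∃ a : Fin k → Fin b → Bool, ∀ j, ∃ i, W (i, j, a i) = true := by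
  constructor
  · rintro ⟨w, hw⟩
    -- all letters of w are codes
    have hnone : none ∉ w.map (unlt e) := by
      intro hn
      have := (inst_accepts hb e p W (Fin.natAdd k ⟨0, hr⟩) w).1 (hw _)
      rw [stepA_none W p _ _ hn] at this
      simp [accA] at this
    obtain ⟨u, hu⟩ : ∃ u : List (Lt b k M), w.map (unlt e) = u.map some := by
      have : ∀ L : List (Option (Lt b k M)), none ∉ L →
          ∃ u : List (Lt b k M), L = u.map some := by
        intro L
        induction L with
        | nil => intro _; exact ⟨[], rfl⟩
        | cons l L ih =>
          intro h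
          simp only [List.mem_cons, not_or] at h
          obtain ⟨u, rfl⟩ := ih h.2
          cases l with
          | none => exact absurd rfl h.1
          | some l => exact ⟨l :: u, rfl⟩
      exact this _ hnone
    have hB : ∀ i : Fin k, ∃ a, u.foldl (stepB W i) .start = .val a := by
      intro i
      have := (inst_accepts hb e p W (Fin.castAdd r i) w).1 (hw _)
      rw [hu, foldA_block] at this
      cases h : u.foldl (stepB W i) (.start : St b) with
      | dead => rw [h] at this; simp [accA] at this
      | start => rw [h] at this; simp [accA] at this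
      | val a => exact ⟨a, rfl⟩
    have hC : ∀ i : Fin r, u.foldl (stepC (p i)) .start = (.val (enc 0) : St b) := by
      intro i
      have := (inst_accepts hb e p W (Fin.natAdd k i) w).1 (hw _)
      rw [hu, foldA_count] at this
      cases h : u.foldl (stepC (p i)) (.start : St b) with
      | dead => rw [h] at this; simp [accA] at this
      | start => rw [h] at this; simp [accA] at this
      | val a =>
        rw [h] at this
        simp only [accA, Fin.addCases_right, decide_eq_true_eq] at this
        rw [this]
    choose a ha using hB
    have h1 : ∀ i, p i ∣ (cl u).length ∧ ∀ (t : ℕ) (ht : t < (cl u).length),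
        (cl u)[t] % p i = t % p i := by
      intro i
      obtain ⟨_, h2, h3⟩ := runC_start (hp i) (hpb i) u _ (hC i)
      refine ⟨?_, h3⟩
      exact Nat.dvd_of_mod_eq_zero (enc_inj (by positivity)
        (lt_of_lt_of_le (Nat.mod_lt _ (hp i)) (hpb i)) h2).symm
    have hlen : 1 ≤ (cl u).length := (runC_start (hp ⟨0, hr⟩) (hpb _) u _ (hC _)).1
    have hcop' : Set.Pairwise (Finset.univ : Finset (Fin r)) (Function.onFun IsCoprime
        (fun i => (p i : ℤ))) := by
      intro i _ j _ hij
      exact Nat.isCoprime_iff_coprime.2 (hcop i j hij)
    have hM' : (M : ℤ) = ∏ i, (p i : ℤ) := by exact_mod_cast hpM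
    have hdvd : M ∣ (cl u).length := by
      rw [← Int.natCast_dvd_natCast, hM']
      exact Finset.prod_dvd_of_coprime hcop' (fun i _ => Int.natCast_dvd_natCast.2 (h1 i).1)
    have hle : M ≤ (cl u).length := Nat.le_of_dvd hlen hdvd
    refine ⟨a, fun j => ?_⟩
    have hj : (j : ℕ) < (cl u).length := lt_of_lt_of_le j.2 hle
    have hmem : (cl u)[(j : ℕ)] ∈ cl u := List.getElem_mem hj
    obtain ⟨j', i, hj', hi⟩ := mem_cl hmem
    have hjj : j' = j := by
      apply Fin.ext
      have h2 : ((M : ℕ) : ℤ) ∣ (j' : ℤ) - (j : ℤ) := by
        rw [hM']
        refine Finset.prod_dvd_of_coprime hcop' (fun i _ => ?_)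
        have h3 := (h1 i).2 (j : ℕ) hj
        rw [← hj'] at h3
        exact (Nat.modEq_iff_dvd.1 (show (j : ℕ) ≡ j' [MOD p i] from h3.symm))
      have h4 : (j : ℕ) ≡ j' [MOD M] := Nat.modEq_iff_dvd.2 h2
      exact (Nat.ModEq.eq_of_lt_of_lt h4 j.2 j'.2).symm
    subst hjj
    exact ⟨i, (runB_val W i (a i) u _ (ha i)).2 _ hi⟩
  · rintro ⟨a, ha⟩
    choose ι hι using ha
    refine ⟨((List.finRange k).map (fun i' => e (Lt.set i' (a i')))) ++
      ((List.finRange M).map (fun j => e (Lt.claim j (ι j)))), fun i => ?_⟩
    rw [inst_accepts hb]
    have hw : (((List.finRange k).map (fun i' => e (Lt.set i' (a i')))) ++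
      ((List.finRange M).map (fun j => e (Lt.claim j (ι j))))).map (unlt e) =
      (((List.finRange k).map (fun i' => (Lt.set i' (a i') : Lt b k M))) ++
      ((List.finRange M).map (fun j => (Lt.claim j (ι j) : Lt b k M)))).map some := by
      simp only [List.map_append, List.map_map]
      congr 1
      · apply List.map_congr_left
        intro x _
        exact unlt_emb e _
      · apply List.map_congr_left
        intro x _
        exact unlt_emb e _
    rw [hw]
    refine Fin.addCases (fun i' => ?_) (fun i' => ?_) i
    · rw [foldA_block, List.foldl_append, (runB_set W i' a _ (List.nodup_finRange k)).1,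
        if_pos (List.mem_finRange i'), runB_claim W i' (a i') ι (fun j hj => by
          have := hι j
          rw [hj] at this
          exact this)]
      simp [accA]
    · rw [foldA_count, List.foldl_append, runC_set, runC_all hM
        (hpM ▸ Finset.dvd_prod_of_mem p (Finset.mem_univ i')) ι]
      simp [accA]

/-- Every bit of the instance is a constant or one of the bits of `W`. -/
theorem inst_proj (e : Lt b k M ↪ Fin K) (p : Fin r → ℕ) (z : Bits (k + r) (b + 1) K) :
    (∃ c, ∀ W, inst e p W z = c) ∨ ∃ t, ∀ W, inst e p W z = W t := by
  rcases z with ⟨i, t⟩ | ⟨i, q, a, t⟩ | ⟨i, q⟩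
  · exact Or.inl ⟨_, fun W => rfl⟩
  · simp only [inst]
    cases hl : unlt e a with
    | none => exact Or.inl ⟨_, fun W => rfl⟩
    | some l =>
      simp only [stepA, Option.elim_some]
      refine Fin.addCases (fun i' => ?_) (fun i' => ?_) i
      · simp only [Fin.addCases_left]
        cases hq : uncode q with
        | dead => exact Or.inl ⟨_, fun W => rfl⟩
        | start =>
          cases l with
          | set i'' a' =>
            exact Or.inl ⟨code (stepB (fun _ => false) i' .start (Lt.set i'' a' : Lt b k M)) t,
              fun W => rfl⟩
          | claim j i'' =>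
            exact Or.inl ⟨code (stepB (fun _ => false) i' .start (Lt.claim j i'')) t,
              fun W => rfl⟩
        | val v =>
          cases l with
          | set i'' a' =>
            exact Or.inl ⟨code (stepB (fun _ => false) i' (.val v) (Lt.set i'' a' : Lt b k M)) t,
              fun W => rfl⟩
          | claim j i'' =>
            by_cases hi : i'' = i'
            · simp only [stepB, hi, if_true]
              by_cases hc : (code (.val v) : Fin (b + 1) → Bool) t = true
              · refine Or.inr ⟨(i', j, v), fun W => ?_⟩
                by_cases hW : W (i', j, v) = true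
                · rw [if_pos hW, hc, hW]
                · rw [if_neg hW]
                  rw [Bool.not_eq_true] at hW
                  rw [hW]; rfl
              · refine Or.inl ⟨false, fun W => ?_⟩
                by_cases hW : W (i', j, v) = true
                · rw [if_pos hW]; simpa using hc
                · rw [if_neg hW]; rfl
            · refine Or.inl ⟨code (.val v : St b) t, fun W => ?_⟩
              simp only [stepB, hi, if_false]
      · simp only [Fin.addCases_right]
        exact Or.inl ⟨_, fun W => rfl⟩
  · exact Or.inl ⟨_, fun W => rfl⟩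

end Pool.Agent.H251R2.DFAI
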